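import Pool.Agent.J4H69.K2.Stm

set_option autoImplicit false

/-!
# Project K2 (helper69), job FIN3A, by helper72
-/

namespace Pool.Agent.J4H72.K2

open Filter Topology Set Metric
open Pool.Agent.J4H69.K1 Pool.Agent.J4H69.K2

/-- a polynomial in two variables `X_0, X_1` as an element of `ℂ[X][Y]`, `X_0 = X`, `X_1 = Y` -/
noncomputable def toE : MvPolynomial (Fin 2) ℂ →+* Polynomial (Polynomial ℂ) :=
  MvPolynomial.eval₂Hom (Polynomial.C.comp Polynomial.C) ![Polynomial.C Polynomial.X, Polynomial.X]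

lemma toE_evalEval (r : MvPolynomial (Fin 2) ℂ) (x y : ℂ) :
    (toE r).evalEval x y = MvPolynomial.eval ![x, y] r := by
  have h : (Polynomial.evalEvalRingHom x y).comp toE = MvPolynomial.eval ![x, y] := by
    apply MvPolynomial.ringHom_ext
    · intro c
      simp [toE, Polynomial.evalEval]
    · intro i
      fin_cases i <;> simp [toE, Polynomial.evalEval]
  have := congrArg (fun f => f r) h
  simpa using this

lemma toE_ne (r : MvPolynomial (Fin 2) ℂ) (hr : r ≠ 0) : toE r ≠ 0 := by
  intro h
  apply hr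
  apply MvPolynomial.funext
  intro s
  have hs : s = ![s 0, s 1] := by
    ext i; fin_cases i <;> rfl
  rw [hs, ← toE_evalEval, h]
  simp

/-- an irreducible polynomial which contains `X_1` does not vanish on a line `X_0 = α` -/
lemma line_ne (Q : MvPolynomial (Fin 2) ℂ) (hQ : Irreducible Q) (h1 : Q.degreeOf 1 ≠ 0) (α : ℂ) :
    ∃ y : ℂ, MvPolynomial.eval ![α, y] Q ≠ 0 := by
  by_contra hcon
  push Not at hcon
  set P := MvPolynomial.finSuccEquiv ℂ 1 Q with hP
  have hroot : P.eval (MvPolynomial.C α) = 0 := by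
    apply MvPolynomial.funext
    intro s
    have h2 := MvPolynomial.eval_eq_eval_mv_eval' s α Q
    have h3 : (Fin.cons α s : Fin 2 → ℂ) = ![α, s 0] := by
      ext i; fin_cases i <;> rfl
    rw [h3, hcon (s 0)] at h2
    rw [map_zero]
    rw [Polynomial.eval_map] at h2
    have h4 : MvPolynomial.eval s (P.eval (MvPolynomial.C α)) =
        Polynomial.eval₂ (MvPolynomial.eval s) (MvPolynomial.eval s (MvPolynomial.C α)) P := by
      rw [Polynomial.eval, Polynomial.hom_eval₂]
      simp
    rw [h4, MvPolynomial.eval_C]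
    exact h2.symm
  obtain ⟨G, hG⟩ := Polynomial.dvd_iff_isRoot.2 hroot
  have hX : (MvPolynomial.finSuccEquiv ℂ 1) (MvPolynomial.X 0 - MvPolynomial.C α) =
      Polynomial.X - Polynomial.C (MvPolynomial.C α) := by
    rw [map_sub, MvPolynomial.finSuccEquiv_X_zero]
    congr 1
    have h5 := MvPolynomial.finSuccEquiv_comp_C_eq_C (R := ℂ) 1
    have h6 := congrArg (fun f => f α) h5
    have h7 : (MvPolynomial.finSuccEquiv ℂ 1).symm (Polynomial.C (MvPolynomial.C α)) =
        MvPolynomial.C α := h6
    rw [← h7, AlgEquiv.apply_symm_apply]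
  have hQ' : Q = (MvPolynomial.X 0 - MvPolynomial.C α) * (MvPolynomial.finSuccEquiv ℂ 1).symm G := by
    apply (MvPolynomial.finSuccEquiv ℂ 1).injective
    rw [map_mul, hX, AlgEquiv.apply_symm_apply]
    exact hG
  have hnu : ¬ IsUnit (MvPolynomial.X 0 - MvPolynomial.C α : MvPolynomial (Fin 2) ℂ) := by
    intro hu
    have := hu.map (MvPolynomial.eval ![α, 0])
    simp at this
  have hGu := (hQ.isUnit_or_isUnit hQ').resolve_left hnu
  have hG0 := (MvPolynomial.isUnit_iff_totalDegree_of_isReduced.1 hGu).2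
  apply h1
  have hd1 : MvPolynomial.degreeOf 1 ((MvPolynomial.finSuccEquiv ℂ 1).symm G) = 0 := by
    have := MvPolynomial.degreeOf_le_totalDegree ((MvPolynomial.finSuccEquiv ℂ 1).symm G) 1
    omega
  have hd2 : MvPolynomial.degreeOf 1 (MvPolynomial.X 0 - MvPolynomial.C α : MvPolynomial (Fin 2) ℂ) = 0 := by
    apply Nat.le_zero.1
    refine (MvPolynomial.degreeOf_sub_le _ _ _).trans ?_
    rw [MvPolynomial.degreeOf_X, MvPolynomial.degreeOf_C]
    simp
  apply Nat.le_zero.1
  calc Q.degreeOf 1 = MvPolynomial.degreeOf 1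
        ((MvPolynomial.X 0 - MvPolynomial.C α) * (MvPolynomial.finSuccEquiv ℂ 1).symm G) := by rw [← hQ']
    _ ≤ _ := MvPolynomial.degreeOf_mul_le _ _ _
    _ = 0 := by rw [hd1, hd2]

lemma line_finite (Q : MvPolynomial (Fin 2) ℂ) (α : ℂ) (h : ∃ y : ℂ, MvPolynomial.eval ![α, y] Q ≠ 0) :
    {y : ℂ | MvPolynomial.eval ![α, y] Q = 0}.Finite := by
  set q : Polynomial ℂ := MvPolynomial.eval₂Hom Polynomial.C ![Polynomial.C α, Polynomial.X] Q with hq
  have hev : ∀ y, q.eval y = MvPolynomial.eval ![α, y] Q := by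
    intro y
    have h1 : (Polynomial.evalRingHom y).comp
        (MvPolynomial.eval₂Hom Polynomial.C ![Polynomial.C α, Polynomial.X]) =
        MvPolynomial.eval ![α, y] := by
      apply MvPolynomial.ringHom_ext
      · intro c; simp
      · intro i; fin_cases i <;> simp
    exact congrArg (fun f => f Q) h1
  have hq0 : q ≠ 0 := by
    intro h0
    obtain ⟨y, hy⟩ := h
    rw [← hev, h0] at hy
    simp at hy
  refine (q.roots.toFinset.finite_toSet).subset ?_
  intro y hy
  simp only [Finset.mem_coe, Multiset.mem_toFinset]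
  rw [Polynomial.mem_roots hq0, Polynomial.IsRoot, hev]
  exact hy

lemma fin3_cases : ∀ a b c i : Fin 3, a ≠ b → a ≠ c → b ≠ c → i = a ∨ i = b ∨ i = c := by decide

theorem t_FIN3A : S_TRN → S_FIN3A := by
  intro hTRN T I hT a b c hab hac hbc Q hQ hQI _ hQ1 R hR hRI
  set P := MvPolynomial.finSuccEquiv ℂ 2 R with hP
  have hP0 : P ≠ 0 := by
    intro h
    apply hR
    apply (MvPolynomial.finSuccEquiv ℂ 2).injective
    rw [map_zero]; exact h
  set r := P.leadingCoeff with hr
  have hr0 : r ≠ 0 := Polynomial.leadingCoeff_ne_zero.2 hP0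
  have hE := hTRN (toE r) (toE_ne r hr0)
  set Z : Set ℂ := {x : ℂ | (toE r).evalEval x (rg x) = 0} with hZ
  have hZc : IsClosed Z := by
    rw [isClosed_iff_clusterPt]
    intro x hx
    by_contra hxZ
    apply hE x
    rw [accPt_iff_clusterPt]
    have h2 : 𝓟 {x}ᶜ ⊓ 𝓟 Z = 𝓟 Z := by
      rw [inf_principal]
      congr 1
      ext w
      simp only [mem_inter_iff, mem_compl_iff, mem_singleton_iff, and_iff_right_iff_imp]
      intro hw h3
      exact hxZ (h3 ▸ hw)
    rw [h2]; exact hx
  refine ⟨Zᶜ, hZc.isOpen_compl, ?_, ?_⟩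
  · by_contra hne
    rw [not_nonempty_iff_eq_empty] at hne
    have hu : Z = univ := by rwa [compl_empty_iff] at hne
    apply hE 0
    rw [hu, principal_univ]
    unfold AccPt
    rw [inf_top_eq]
    infer_instance
  · intro c' hc'
    have hrc : MvPolynomial.eval ![c', rg c'] r ≠ 0 := by
      rw [← toE_evalEval]; exact hc'
    set p : Polynomial ℂ := P.map (MvPolynomial.eval ![c', rg c']) with hp
    have hp0 : p ≠ 0 := by
      intro h
      apply hrc
      have := congrArg (fun q => q.coeff P.natDegree) h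
      simpa [hp, Polynomial.coeff_map] using this
    have hfin : (⋃ α ∈ (p.roots.toFinset : Set ℂ),
        (fun β => (fun i : Fin 3 => if i = a then α else if i = b then β else c')) ''
          {y : ℂ | MvPolynomial.eval ![α, y] Q = 0}).Finite := by
      apply Set.Finite.biUnion (Finset.finite_toSet _)
      intro α _
      exact (line_finite Q α (line_ne Q hQ hQ1 α)).image _
    refine hfin.subset ?_
    rintro z ⟨hzT, hzc⟩
    have e1 := hT z hzT _ hRI
    have e2 := hT z hzT _ hQI
    rw [MvPolynomial.eval_rename] at e1 e2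
    have e3 : (env rg z ∘ ![Sum.inl a, Sum.inl c, Sum.inr c] : Fin 3 → ℂ) =
        Fin.cons (z a) ![c', rg c'] := by
      ext i
      fin_cases i
      · rfl
      · simp [env, hzc]
      · simp [env, hzc]
    have e4 : (env rg z ∘ ![Sum.inl a, Sum.inl b] : Fin 2 → ℂ) = ![z a, z b] := by
      ext i
      fin_cases i <;> simp [env]
    rw [e3, MvPolynomial.eval_eq_eval_mv_eval'] at e1
    rw [e4] at e2
    simp only [mem_iUnion, mem_image, Finset.mem_coe, Multiset.mem_toFinset]
    refine ⟨z a, ?_, z b, e2, ?_⟩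
    · rw [Polynomial.mem_roots hp0, Polynomial.IsRoot]
      exact e1
    · ext i
      have hi : i = a ∨ i = b ∨ i = c := fin3_cases a b c i hab hac hbc
      rcases hi with rfl | rfl | rfl
      · simp
      · simp [hab.symm]
      · simp [hac.symm, hbc.symm, hzc]

end Pool.Agent.J4H72.K2
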