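import Pool.Agent.J4H69.K2.Stm
import Pool.Agent.J4H98.K1.Trn

set_option autoImplicit false

/-!
Project K2 of helper69 (MP_26ad15_nt), job HOL: `z, rg z, rg' z` are algebraically independent, strong form.
The values at the positive integers `m + 1` are used: `rg (m+1) = 1/m!`, `rg' (m+1) = -(H_m - γ)/m!`.
-/

namespace Pool.Agent.J4H72.K2

open Filter Topology Set Metric Polynomial
open Pool.Agent.J4H69.K1 Pool.Agent.J4H69.K2
open Pool.Agent.J4H98.K1 (rg_diff)

noncomputable section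

/-- the value of the digamma function at `m + 1` -/
def hh (m : ℕ) : ℂ := ((-Real.eulerMascheroniConstant + (harmonic m : ℝ) : ℝ) : ℂ)

lemma rg_succ (m : ℕ) : rg ((m : ℂ) + 1) = 1 / (m.factorial : ℂ) := by
  unfold rg
  rw [Complex.Gamma_nat_eq_factorial, one_div]

lemma deriv_rg_succ (m : ℕ) : deriv rg ((m : ℂ) + 1) = -(1 / (m.factorial : ℂ) * hh m) := by
  have h := Complex.hasDerivAt_Gamma_nat m
  have hne : Complex.Gamma ((m : ℂ) + 1) ≠ 0 := by
    rw [Complex.Gamma_nat_eq_factorial]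
    exact_mod_cast Nat.factorial_ne_zero m
  have h2 := h.inv hne
  have h3 : deriv rg ((m : ℂ) + 1) = -((m.factorial : ℂ) * (-Real.eulerMascheroniConstant + harmonic m)) /
      Complex.Gamma ((m : ℂ) + 1) ^ 2 := h2.deriv
  rw [h3, Complex.Gamma_nat_eq_factorial]
  have hf : (m.factorial : ℂ) ≠ 0 := by exact_mod_cast Nat.factorial_ne_zero m
  unfold hh
  push_cast
  field_simp

lemma hh_atTop : Tendsto (fun m => ‖hh m‖) atTop atTop := by
  have h1 : Tendsto (fun m : ℕ => Real.log ((m + 1 : ℕ) : ℝ)) atTop atTop :=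
    Real.tendsto_log_atTop.comp (tendsto_natCast_atTop_atTop.comp (tendsto_add_atTop_nat 1))
  have h2 : Tendsto (fun m : ℕ => -Real.eulerMascheroniConstant + (harmonic m : ℝ)) atTop atTop := by
    apply tendsto_atTop_add_const_left
    exact tendsto_atTop_mono (fun m => log_add_one_le_harmonic m) h1
  have h3 := tendsto_abs_atTop_atTop.comp h2
  refine h3.congr fun m => ?_
  unfold hh
  rw [Complex.norm_real]
  rfl

lemma hh_le (m : ℕ) : ‖hh m‖ ≤ 3 + Real.log ((m : ℝ) + 1) := by
  unfold hh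
  rw [Complex.norm_real, Real.norm_eq_abs]
  have h1 := harmonic_le_one_add_log m
  have h2 := Real.one_half_lt_eulerMascheroniConstant
  have h3 := Real.eulerMascheroniConstant_lt_two_thirds
  have h4 : (0 : ℝ) ≤ harmonic m := by
    have := log_add_one_le_harmonic m
    have h5 : 0 ≤ Real.log ((m + 1 : ℕ) : ℝ) := Real.log_natCast_nonneg _
    linarith
  have h5 : Real.log (m : ℝ) ≤ Real.log ((m : ℝ) + 1) := by
    rcases Nat.eq_zero_or_pos m with h | h
    · subst h; simp
    · apply Real.log_le_log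
      · exact_mod_cast h
      · linarith
  have h6 : 0 ≤ Real.log ((m : ℝ) + 1) := Real.log_nonneg (by linarith [(Nat.cast_nonneg m : (0 : ℝ) ≤ m)])
  rw [abs_le]
  constructor <;> linarith

lemma nx_ne (m : ℕ) : ((m : ℂ) + 1) ≠ 0 := by exact_mod_cast Nat.succ_ne_zero m

lemma nx_norm (m : ℕ) : ‖((m : ℂ) + 1)‖ = (m : ℝ) + 1 := by
  have : ((m : ℂ) + 1) = (((m : ℝ) + 1 : ℝ) : ℂ) := by push_cast; rfl
  rw [this, Complex.norm_real, Real.norm_eq_abs, abs_of_nonneg (by positivity)]

/-- powers of `hh` are small against `m + 1` -/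
lemma pow_small (j : ℕ) : Tendsto (fun m : ℕ => hh m ^ j / ((m : ℂ) + 1)) atTop (𝓝 0) := by
  rw [tendsto_zero_iff_norm_tendsto_zero]
  have hx : Tendsto (fun m : ℕ => (m : ℝ) + 1) atTop atTop :=
    tendsto_atTop_add_const_right _ _ tendsto_natCast_atTop_atTop
  have h1 : Tendsto (fun x : ℝ => (3 + Real.log x) ^ j / x) atTop (𝓝 0) := by
    have h2 : (fun x : ℝ => (3 + Real.log x) ^ j) =O[atTop] fun x => Real.log x ^ j := by
      apply Asymptotics.IsBigO.pow
      apply Asymptotics.IsBigO.add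
      · apply Asymptotics.IsLittleO.isBigO
        exact Real.isLittleO_const_log_atTop
      · exact Asymptotics.isBigO_refl _ _
    have h3 := h2.trans_isLittleO (Real.isLittleO_pow_log_id_atTop (n := j))
    exact h3.tendsto_div_nhds_zero
  refine squeeze_zero (fun _ => norm_nonneg _) (fun m => ?_) (h1.comp hx)
  rw [norm_div, norm_pow, nx_norm]
  simp only [Function.comp_apply]
  gcongr
  exact hh_le m

lemma poly_small (p : Polynomial ℂ) : Tendsto (fun m : ℕ => p.eval (hh m) / ((m : ℂ) + 1)) atTop (𝓝 0) := by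
  induction p using Polynomial.induction_on' with
  | add p q hp hq =>
    have := hp.add hq
    rw [add_zero] at this
    refine this.congr fun m => ?_
    rw [eval_add, add_div]
  | monomial n a =>
    have := (pow_small n).const_mul a
    rw [mul_zero] at this
    refine this.congr fun m => ?_
    rw [eval_monomial, mul_div_assoc]

lemma poly_lower (p : Polynomial ℂ) (hp : p ≠ 0) : ∃ c : ℝ, 0 < c ∧ ∀ᶠ m in atTop, c ≤ ‖p.eval (hh m)‖ := by
  by_cases hd : 0 < p.degree
  · exact ⟨1, one_pos, (p.tendsto_norm_atTop hd hh_atTop).eventually_ge_atTop 1⟩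
  · have h1 : p = C (p.coeff 0) := Polynomial.eq_C_of_degree_le_zero (not_lt.1 hd)
    have h2 : p.coeff 0 ≠ 0 := by
      intro h0
      apply hp
      rw [h1, h0, map_zero]
    refine ⟨‖p.coeff 0‖, norm_pos_iff.2 h2, Eventually.of_forall fun m => ?_⟩
    rw [h1]; simp

/-- powers of `m + 1` are small against `m!` -/
lemma fac_small (a : ℕ) : Tendsto (fun m : ℕ => ((m : ℂ) + 1) ^ a / (m.factorial : ℂ)) atTop (𝓝 0) := by
  rw [tendsto_zero_iff_norm_tendsto_zero]
  have h1 : Tendsto (fun n : ℕ => (n : ℝ) ^ a / 2 ^ n) atTop (𝓝 0) :=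
    tendsto_pow_const_div_const_pow_of_one_lt a one_lt_two
  have h2 : Tendsto (fun n : ℕ => ((n + 1 : ℕ) : ℝ) ^ a / 2 ^ (n + 1)) atTop (𝓝 0) :=
    h1.comp (tendsto_add_atTop_nat 1)
  have h3 : Tendsto (fun n : ℕ => (2 : ℝ) ^ n / n.factorial) atTop (𝓝 0) :=
    FloorSemiring.tendsto_pow_div_factorial_atTop (2 : ℝ)
  have h4 := (h2.mul h3).const_mul 2
  rw [mul_zero, mul_zero] at h4
  refine h4.congr fun m => ?_
  rw [norm_div, norm_pow, nx_norm]
  have hf : (m.factorial : ℝ) ≠ 0 := by exact_mod_cast Nat.factorial_ne_zero m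
  have : ‖(m.factorial : ℂ)‖ = (m.factorial : ℝ) := by simp
  rw [this]
  push_cast
  have h2 : (2 : ℝ) ^ m ≠ 0 := by positivity
  field_simp
  ring

/-- evaluation at `ψ, x` -/
def ev2 (m : ℕ) : Polynomial (Polynomial ℂ) →+* ℂ := eval₂RingHom (evalRingHom (hh m)) ((m : ℂ) + 1)

/-- evaluation at `ψ, x, y` -/
def ev3 (m : ℕ) : Polynomial (Polynomial (Polynomial ℂ)) →+* ℂ :=
  eval₂RingHom (ev2 m) (1 / (m.factorial : ℂ))

lemma ev2_mono (m n : ℕ) (p : Polynomial ℂ) :
    ev2 m (monomial n p) = p.eval (hh m) * ((m : ℂ) + 1) ^ n := by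
  simp [ev2]

lemma ev2_small (r : Polynomial (Polynomial ℂ)) :
    Tendsto (fun m : ℕ => ev2 m r / (m.factorial : ℂ)) atTop (𝓝 0) := by
  induction r using Polynomial.induction_on' with
  | add p q hp hq =>
    have := hp.add hq
    rw [add_zero] at this
    refine this.congr fun m => ?_
    rw [map_add, add_div]
  | monomial n a =>
    have := (poly_small a).mul (fac_small (n + 1))
    rw [mul_zero] at this
    refine this.congr fun m => ?_
    rw [ev2_mono]
    have h1 := nx_ne m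
    field_simp
    ring

lemma ev2_lower (r : Polynomial (Polynomial ℂ)) (hr : r ≠ 0) :
    ∃ c : ℝ, 0 < c ∧ ∀ᶠ m in atTop, c ≤ ‖ev2 m r‖ := by
  obtain ⟨c, hc, hcm⟩ := poly_lower r.leadingCoeff (leadingCoeff_ne_zero.2 hr)
  have h1 : ∀ m, ev2 m r / ((m : ℂ) + 1) ^ r.natDegree = r.leadingCoeff.eval (hh m) +
      ∑ a ∈ Finset.range r.natDegree,
        (r.coeff a).eval (hh m) * ((m : ℂ) + 1) ^ a / ((m : ℂ) + 1) ^ r.natDegree := by
    intro m
    have h2 : ev2 m r = ∑ a ∈ Finset.range (r.natDegree + 1),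
        (r.coeff a).eval (hh m) * ((m : ℂ) + 1) ^ a := by
      unfold ev2
      rw [coe_eval₂RingHom, eval₂_eq_sum_range]
      rfl
    rw [h2, Finset.sum_range_succ, add_div, Finset.sum_div, add_comm]
    congr 1
    rw [mul_div_assoc, div_self (pow_ne_zero _ (nx_ne m)), mul_one]
    rfl
  have h2 : Tendsto (fun m : ℕ => ∑ a ∈ Finset.range r.natDegree,
      (r.coeff a).eval (hh m) * ((m : ℂ) + 1) ^ a / ((m : ℂ) + 1) ^ r.natDegree) atTop (𝓝 0) := by
    have h3 : ∀ a ∈ Finset.range r.natDegree, Tendsto (fun m : ℕ =>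
        (r.coeff a).eval (hh m) * ((m : ℂ) + 1) ^ a / ((m : ℂ) + 1) ^ r.natDegree) atTop (𝓝 0) := by
      intro a ha
      have ha' := Finset.mem_range.1 ha
      have h4 := poly_small (r.coeff a)
      rw [tendsto_zero_iff_norm_tendsto_zero] at h4 ⊢
      refine squeeze_zero (fun _ => norm_nonneg _) (fun m => ?_) h4
      rw [norm_div, norm_mul, norm_pow, norm_pow, norm_div, nx_norm]
      have hx : (1 : ℝ) ≤ (m : ℝ) + 1 := by linarith [(Nat.cast_nonneg m : (0 : ℝ) ≤ m)]
      rw [div_le_div_iff₀ (by positivity) (by positivity)]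
      have h5 : ((m : ℝ) + 1) ^ a * ((m : ℝ) + 1) ≤ ((m : ℝ) + 1) ^ r.natDegree := by
        rw [← pow_succ]
        exact pow_le_pow_right₀ hx (by omega)
      calc ‖(r.coeff a).eval (hh m)‖ * ((m : ℝ) + 1) ^ a * ((m : ℝ) + 1)
          = ‖(r.coeff a).eval (hh m)‖ * (((m : ℝ) + 1) ^ a * ((m : ℝ) + 1)) := by ring
        _ ≤ _ := by gcongr
    have := tendsto_finsetSum (Finset.range r.natDegree) h3
    simpa using this
  refine ⟨c / 2, by positivity, ?_⟩
  have h3 := (tendsto_zero_iff_norm_tendsto_zero.1 h2).eventually_le_const (by positivity : 0 < c / 2)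
  filter_upwards [h3, hcm] with m h4 h5
  have h6 : ‖r.leadingCoeff.eval (hh m)‖ - ‖∑ a ∈ Finset.range r.natDegree,
      (r.coeff a).eval (hh m) * ((m : ℂ) + 1) ^ a / ((m : ℂ) + 1) ^ r.natDegree‖ ≤
      ‖ev2 m r / ((m : ℂ) + 1) ^ r.natDegree‖ := by
    rw [h1 m]
    have := norm_sub_le (r.leadingCoeff.eval (hh m) + ∑ a ∈ Finset.range r.natDegree,
      (r.coeff a).eval (hh m) * ((m : ℂ) + 1) ^ a / ((m : ℂ) + 1) ^ r.natDegree)
      (∑ a ∈ Finset.range r.natDegree,
      (r.coeff a).eval (hh m) * ((m : ℂ) + 1) ^ a / ((m : ℂ) + 1) ^ r.natDegree)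
    rw [add_sub_cancel_right] at this
    linarith
  have h7 : ‖ev2 m r / ((m : ℂ) + 1) ^ r.natDegree‖ ≤ ‖ev2 m r‖ := by
    rw [norm_div, norm_pow, nx_norm]
    apply div_le_self (norm_nonneg _)
    exact one_le_pow₀ (by linarith [(Nat.cast_nonneg m : (0 : ℝ) ≤ m)])
  linarith

lemma inv_fac : Tendsto (fun m : ℕ => 1 / (m.factorial : ℂ)) atTop (𝓝 0) := by
  have := fac_small 0
  simpa using this

lemma ev3_small (S : Polynomial (Polynomial (Polynomial ℂ))) :
    Tendsto (fun m : ℕ => ev3 m S * (1 / (m.factorial : ℂ))) atTop (𝓝 0) := by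
  induction S using Polynomial.induction_on' with
  | add p q hp hq =>
    have := hp.add hq
    rw [add_zero] at this
    refine this.congr fun m => ?_
    rw [map_add, add_mul]
  | monomial n a =>
    have := (ev2_small a).mul (inv_fac.pow n)
    rw [zero_mul] at this
    refine this.congr fun m => ?_
    simp only [ev3, coe_eval₂RingHom, eval₂_monomial]
    ring

lemma ev3_ne (S : Polynomial (Polynomial (Polynomial ℂ))) (hS : S ≠ 0) : ∃ m, ev3 m S ≠ 0 := by
  obtain ⟨q, hq, hq'⟩ := exists_eq_pow_rootMultiplicity_mul_and_not_dvd S hS 0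
  have h0 : q.coeff 0 ≠ 0 := by
    intro h
    apply hq'
    rw [dvd_iff_isRoot, IsRoot, ← coeff_zero_eq_eval_zero]
    exact h
  obtain ⟨c, hc, hcm⟩ := ev2_lower _ h0
  have h1 := (tendsto_zero_iff_norm_tendsto_zero.1 (ev3_small q.divX)).eventually_lt_const hc
  obtain ⟨m, h2, h3⟩ := (hcm.and h1).exists
  refine ⟨m, ?_⟩
  have hy : (1 / (m.factorial : ℂ)) ≠ 0 := by
    exact one_div_ne_zero (by exact_mod_cast Nat.factorial_ne_zero m)
  have e1 : ev3 m X = 1 / (m.factorial : ℂ) := by simp [ev3]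
  have e2 : ev3 m q = ev3 m q.divX * (1 / (m.factorial : ℂ)) + ev2 m (q.coeff 0) := by
    conv_lhs => rw [← divX_mul_X_add q]
    rw [map_add, map_mul, e1]
    congr 1
    simp [ev3]
  rw [hq, map_mul, map_pow, map_zero, sub_zero, e1]
  apply mul_ne_zero (pow_ne_zero _ hy)
  intro h
  rw [e2] at h
  have h4 : ev2 m (q.coeff 0) = -(ev3 m q.divX * (1 / (m.factorial : ℂ))) := by
    linear_combination h
  rw [h4, norm_neg] at h2
  linarith

/-- the polynomial `N(X, Y, -Y Ψ)` -/
def PhN : MvPolynomial (Fin 3) ℂ →+* Polynomial (Polynomial (Polynomial ℂ)) :=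
  MvPolynomial.eval₂Hom (R := ℂ) (S₁ := Polynomial (Polynomial (Polynomial ℂ)))
    ((C : Polynomial (Polynomial ℂ) →+* Polynomial (Polynomial (Polynomial ℂ))).comp
    ((C : Polynomial ℂ →+* Polynomial (Polynomial ℂ)).comp (C : ℂ →+* Polynomial ℂ)))
    ![C X, X, -(X * C (C X))]

/-- evaluation at arbitrary points -/
def evA (s x y : ℂ) : Polynomial (Polynomial (Polynomial ℂ)) →+* ℂ :=
  eval₂RingHom (eval₂RingHom (evalRingHom s) x) y

lemma evA_PhN (s x y : ℂ) (N : MvPolynomial (Fin 3) ℂ) :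
    evA s x y (PhN N) = MvPolynomial.eval ![x, y, -(y * s)] N := by
  have h : (evA s x y).comp PhN = MvPolynomial.eval ![x, y, -(y * s)] := by
    refine MvPolynomial.ringHom_ext (fun a => ?_) (fun l => ?_)
    · simp [evA, PhN]
    · fin_cases l <;> simp [evA, PhN, mul_comm]
  exact congrArg (fun f => f N) h

lemma PhN_ne {N : MvPolynomial (Fin 3) ℂ} (hN : N ≠ 0) : PhN N ≠ 0 := by
  intro h
  have h1 : N * MvPolynomial.X 1 = 0 := by
    apply MvPolynomial.funext
    intro v
    rw [map_mul, MvPolynomial.eval_X, map_zero]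
    by_cases hv : v 1 = 0
    · rw [hv, mul_zero]
    · have h2 := evA_PhN (-(v 2) / v 1) (v 0) (v 1) N
      rw [h, map_zero] at h2
      have h3 : (![v 0, v 1, -(v 1 * (-(v 2) / v 1))] : Fin 3 → ℂ) = v := by
        funext l
        fin_cases l
        · rfl
        · rfl
        · change -(v 1 * (-(v 2) / v 1)) = v 2
          field_simp
      rw [h3] at h2
      rw [← h2, zero_mul]
  rcases mul_eq_zero.1 h1 with h2 | h2
  · exact hN h2
  · exact MvPolynomial.X_ne_zero 1 h2

lemma pol_diff (hdr : Differentiable ℂ (deriv rg)) (p : MvPolynomial (Fin 3) ℂ) :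
    Differentiable ℂ fun z => MvPolynomial.eval ![z, rg z, deriv rg z] p := by
  induction p using MvPolynomial.induction_on with
  | C a => simp
  | add p q hp hq =>
    simp only [map_add]
    exact hp.add hq
  | mul_X p n hp =>
    simp only [map_mul, MvPolynomial.eval_X]
    refine hp.mul ?_
    fin_cases n
    · exact differentiable_id
    · exact rg_diff
    · exact hdr

theorem t_HOL : S_HOL := by
  intro N hN x hacc
  have hd : Differentiable ℂ fun z => MvPolynomial.eval ![z, rg z, deriv rg z] N := by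
    have hdr : Differentiable ℂ (deriv rg) :=
      (rg_diff.contDiff (n := 2)).differentiable_deriv_two
    exact pol_diff hdr N
  have hA : AnalyticOnNhd ℂ (fun z => MvPolynomial.eval ![z, rg z, deriv rg z] N) univ :=
    hd.differentiableOn.analyticOnNhd isOpen_univ
  have hfr : ∃ᶠ y in 𝓝[≠] x, MvPolynomial.eval ![y, rg y, deriv rg y] N = 0 := by
    rw [accPt_iff_frequently_nhdsNE] at hacc
    exact hacc
  obtain ⟨m, hm⟩ := ev3_ne _ (PhN_ne hN)
  apply hm
  have h1 := hA.eqOn_zero_of_preconnected_of_frequently_eq_zero isPreconnected_univ (mem_univ x) hfr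
    (mem_univ ((m : ℂ) + 1))
  simp only [Pi.zero_apply] at h1
  have h2 := evA_PhN (hh m) ((m : ℂ) + 1) (1 / (m.factorial : ℂ)) N
  rw [rg_succ, deriv_rg_succ] at h1
  rw [h1] at h2
  exact h2

end

end Pool.Agent.J4H72.K2
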